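import Pool.Agent.Work.MP_2e1090_co.Final

set_option autoImplicit false

namespace Pool.Agent.Results.MP_2e1090_co.RayNotCorank

/-- The index set: the `d`-element subsets of `[n]` (an `n`-element set, here `Fin n`). -/
abbrev Sub (d n : ℕ) : Type := {S : Finset (Fin n) // S.card = d}

/-- The real vectors `π` indexed by the `d`-element subsets of `[n]`. -/
abbrev Vec (d n : ℕ) : Type := Sub d n → ℝ

/-- `π(A)` for a `d`-element set `A` (the value `0` for other sets is never used). -/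
noncomputable def val {d n : ℕ} (π : Vec d n) (A : Finset (Fin n)) : ℝ :=
  if h : A.card = d then π ⟨A, h⟩ else 0

/-- The minimum of `x`, `y`, `z` is attained at least twice. -/
def MinTwice (x y z : ℝ) : Prop := (x = y ∧ x ≤ z) ∨ (x = z ∧ x ≤ y) ∨ (y = z ∧ y ≤ x)

/-- The Dressian `Dr(d,n)`: the set of all tropical Plücker vectors (min convention). -/
def Dr (d n : ℕ) : Set (Vec d n) :=
  {π | ∀ (S : Finset (Fin n)) (a b c e : Fin n), S.card + 2 = d →
    a ∉ S → b ∉ S → c ∉ S → e ∉ S →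
    a ≠ b → a ≠ c → a ≠ e → b ≠ c → b ≠ e → c ≠ e →
    MinTwice (val π (S ∪ {a, b}) + val π (S ∪ {c, e}))
      (val π (S ∪ {a, c}) + val π (S ∪ {b, e}))
      (val π (S ∪ {a, e}) + val π (S ∪ {b, c}))}

/-- The point `e_S` of `ℝ^n`, the sum of the unit vectors `e_i` with `i ∈ S`; for `|S| = d` these
points are the vertices of the hypersimplex `Δ(d,n)`. -/
noncomputable def vert {n : ℕ} (S : Finset (Fin n)) : Fin n → ℝ := ∑ i ∈ S, Pi.single i 1

/-- The convex hull of the lifted points `(e_S, π(S))`. -/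
def lifted {d n : ℕ} (π : Vec d n) : Set ((Fin n → ℝ) × ℝ) :=
  convexHull ℝ (Set.range fun S : Sub d n => (vert S.1, π S))

/-- The lower face of the lifted polytope on which the functional `(x, h) ↦ h + ⟨u, x⟩`, whose
coefficient at the height `h` is positive, is minimal. -/
def lowerFace {d n : ℕ} (π : Vec d n) (u : Fin n → ℝ) : Set ((Fin n → ℝ) × ℝ) :=
  {p | p ∈ lifted π ∧ ∀ q ∈ lifted π, p.2 + ∑ i, u i * p.1 i ≤ q.2 + ∑ i, u i * q.1 i}

/-- The regular subdivision `Σ(π)` of `Δ(d,n)`, as the set of its cells: the projections to `ℝ^n` of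
the lower faces of the lifted polytope. -/
def subdivision {d n : ℕ} (π : Vec d n) : Set (Set (Fin n → ℝ)) :=
  {C | ∃ u : Fin n → ℝ, C = Prod.fst '' lowerFace π u}

/-- The cone of the fan `Dr(d,n)` that belongs to `π`: the closure of the set of all `π'` in
`Dr(d,n)` which induce the same subdivision as `π`. -/
def cone {d n : ℕ} (π : Vec d n) : Set (Vec d n) :=
  closure {π' | π' ∈ Dr d n ∧ subdivision π' = subdivision π}

/-- The lineality space: the vectors `π(S) = ∑_{i ∈ S} a_i` with `a ∈ ℝ^n`. -/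
def lineality (d n : ℕ) : Set (Vec d n) :=
  {π | ∃ a : Fin n → ℝ, ∀ S : Sub d n, π S = ∑ i ∈ S.1, a i}

/-- The dimension of a cone: the dimension of the linear space it spans. -/
noncomputable def dim {d n : ℕ} (C : Set (Vec d n)) : ℕ := Module.finrank ℝ (Submodule.span ℝ C)

/-- `R` is a ray of `Dr(d,n)`: a cone of the fan of dimension one more than the lineality space. -/
def IsRay {d n : ℕ} (R : Set (Vec d n)) : Prop :=
  (∃ π ∈ Dr d n, R = cone π) ∧ dim R = dim (lineality d n) + 1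

/-- The corank vector `ρ_M(S) = d - rk_M(S)` of a matroid `M` of rank `d` on `[n]`. -/
noncomputable def corank {n : ℕ} (d : ℕ) (M : Matroid (Fin n)) : Vec d n :=
  fun S => (d : ℝ) - ((M.eRk (S.1 : Set (Fin n))).toNat : ℝ)

namespace Proof

open Pool.Agent.Work.MP_2e1090_co

variable {d n : ℕ}

/-- The sets on which `π + u` is minimal. -/
def mins (π : Vec d n) (u : Fin n → ℝ) : Set (Sub d n) :=
  {S | ∀ T : Sub d n, π S + ∑ i ∈ S.1, u i ≤ π T + ∑ i ∈ T.1, u i}

lemma vert_apply (S : Finset (Fin n)) (i : Fin n) : vert S i = if i ∈ S then 1 else 0 := by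
  simp [vert, Finset.sum_apply, Pi.single_apply]

lemma sum_vert (u : Fin n → ℝ) (S : Finset (Fin n)) : ∑ i, u i * vert S i = ∑ i ∈ S, u i := by
  simp [vert_apply]

/-- The functional. -/
def ell (u : Fin n → ℝ) : ((Fin n → ℝ) × ℝ) →ₗ[ℝ] ℝ where
  toFun p := p.2 + ∑ i, u i * p.1 i
  map_add' p q := by
    simp only [Prod.snd_add, Prod.fst_add, Pi.add_apply, mul_add, Finset.sum_add_distrib]
    ring
  map_smul' c p := by
    simp only [Prod.smul_snd, Prod.smul_fst, Pi.smul_apply, smul_eq_mul, RingHom.id_apply, mul_add,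
      Finset.mul_sum]
    congr 1
    exact Finset.sum_congr rfl fun i _ => by ring

lemma ell_apply (u : Fin n → ℝ) (p : (Fin n → ℝ) × ℝ) :
    ell u p = p.2 + ∑ i, u i * p.1 i := rfl

lemma ell_vert (u : Fin n → ℝ) (π : Vec d n) (S : Sub d n) :
    ell u (vert S.1, π S) = π S + ∑ i ∈ S.1, u i := by
  rw [ell_apply, sum_vert]

lemma vert_mem_lifted (π : Vec d n) (S : Sub d n) : (vert S.1, π S) ∈ lifted π :=
  subset_convexHull ℝ _ ⟨S, rfl⟩

lemma mem_lowerFace (π : Vec d n) (u : Fin n → ℝ) (p : (Fin n → ℝ) × ℝ) :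
    p ∈ lowerFace π u ↔ p ∈ lifted π ∧ ∀ q ∈ lifted π, ell u p ≤ ell u q := Iff.rfl

lemma convex_lowerFace (π : Vec d n) (u : Fin n → ℝ) : Convex ℝ (lowerFace π u) := by
  intro p hp q hq a b ha hb hab
  rw [mem_lowerFace] at hp hq ⊢
  refine ⟨convex_convexHull ℝ _ hp.1 hq.1 ha hb hab, fun r hr => ?_⟩
  rw [map_add, map_smul, map_smul, smul_eq_mul, smul_eq_mul]
  have h1 := mul_le_mul_of_nonneg_left (hp.2 r hr) ha
  have h2 := mul_le_mul_of_nonneg_left (hq.2 r hr) hb
  have h3 : a * ell u r + b * ell u r = ell u r := by rw [← add_mul, hab, one_mul]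
  linarith

lemma lower_le (π : Vec d n) (u : Fin n → ℝ) {S : Sub d n} (hS : S ∈ mins π u)
    (q : (Fin n → ℝ) × ℝ) (hq : q ∈ lifted π) : ell u (vert S.1, π S) ≤ ell u q := by
  have hc : Convex ℝ {q : (Fin n → ℝ) × ℝ | ell u (vert S.1, π S) ≤ ell u q} :=
    convex_halfSpace_ge (ell u).isLinear _
  have hsub : Set.range (fun S : Sub d n => (vert S.1, π S)) ⊆
      {q : (Fin n → ℝ) × ℝ | ell u (vert S.1, π S) ≤ ell u q} := by
    rintro _ ⟨T, rfl⟩
    show ell u (vert S.1, π S) ≤ ell u (vert T.1, π T)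
    rw [ell_vert, ell_vert]
    exact hS T
  exact convexHull_min hsub hc hq

lemma fst_lowerFace (π : Vec d n) (u : Fin n → ℝ) :
    Prod.fst '' lowerFace π u = convexHull ℝ ((fun S : Sub d n => vert S.1) '' mins π u) := by
  apply Set.Subset.antisymm
  · rintro _ ⟨p, hp, rfl⟩
    rw [mem_lowerFace] at hp
    obtain ⟨hp1, hp2⟩ := hp
    obtain ⟨ι, _, wt, z, hw0, hw1, hz, hx⟩ := mem_convexHull_iff_exists_fintype.1 hp1
    choose S hS using hz
    have hzl : ∀ j, z j ∈ lifted π := fun j => hS j ▸ vert_mem_lifted π (S j)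
    have hsum : ∑ j, wt j * (ell u (z j) - ell u p) = 0 := by
      simp only [mul_sub, Finset.sum_sub_distrib, ← Finset.sum_mul]
      rw [hw1, one_mul]
      have : ell u p = ∑ j, wt j * ell u (z j) := by
        rw [← hx, map_sum]
        exact Finset.sum_congr rfl fun j _ => by rw [map_smul, smul_eq_mul]
      rw [← this, sub_self]
    have hnn : ∀ j ∈ Finset.univ, 0 ≤ wt j * (ell u (z j) - ell u p) := fun j _ =>
      mul_nonneg (hw0 j) (sub_nonneg.2 (hp2 _ (hzl j)))
    have hzero := (Finset.sum_eq_zero_iff_of_nonneg hnn).1 hsum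
    have hmin : ∀ j, wt j ≠ 0 → S j ∈ mins π u := by
      intro j hj T
      have h1 := hzero j (Finset.mem_univ j)
      have h2 : ell u (z j) = ell u p := by
        rcases mul_eq_zero.1 h1 with h | h
        · exact absurd h hj
        · linarith
      have h3 := hp2 _ (vert_mem_lifted π T)
      rw [← h2, ← hS j, ell_vert, ell_vert] at h3
      exact h3
    have hp : p.1 = ∑ j ∈ Finset.univ.filter (fun j => wt j ≠ 0), wt j • vert (S j).1 := by
      rw [Finset.sum_filter_of_ne]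
      · rw [← hx, Prod.fst_sum]
        exact Finset.sum_congr rfl fun j _ => by rw [Prod.smul_fst, ← hS j]
      · intro j _ h hj
        exact h (by rw [hj, zero_smul])
    rw [hp]
    refine (convex_convexHull ℝ _).sum_mem (fun j _ => hw0 j) ?_ fun j hj => ?_
    · rw [Finset.sum_filter_of_ne (fun j _ h => h), hw1]
    · exact subset_convexHull ℝ _ ⟨S j, hmin j (Finset.mem_filter.1 hj).2, rfl⟩
  · refine convexHull_min ?_ ?_
    · rintro _ ⟨S, hS, rfl⟩
      refine ⟨(vert S.1, π S), ?_, rfl⟩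
      rw [mem_lowerFace]
      exact ⟨vert_mem_lifted π S, fun q hq => lower_le π u hS q hq⟩
    · exact (convex_lowerFace π u).linear_image (LinearMap.fst ℝ (Fin n → ℝ) ℝ)

lemma vert_mem_iff (F : Set (Sub d n)) (S : Sub d n) :
    vert S.1 ∈ convexHull ℝ ((fun T : Sub d n => vert T.1) '' F) ↔ S ∈ F := by
  refine ⟨fun h => ?_, fun h => subset_convexHull ℝ _ ⟨S, h, rfl⟩⟩
  by_contra hS
  have hlin : IsLinearMap ℝ (fun x : Fin n → ℝ => ∑ i ∈ S.1, x i) :=
    { map_add := fun x y => by simp [Finset.sum_add_distrib]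
      map_smul := fun c x => by simp [Finset.mul_sum] }
  have hc : Convex ℝ {x : Fin n → ℝ | ∑ i ∈ S.1, x i ≤ (d : ℝ) - 1} :=
    convex_halfSpace_le hlin _
  have hcard : ∀ T : Sub d n, ∑ i ∈ S.1, vert T.1 i = ((S.1 ∩ T.1).card : ℝ) := by
    intro T
    simp only [vert_apply]
    rw [Finset.sum_ite_mem]
    simp
  have hsub : (fun T : Sub d n => vert T.1) '' F ⊆
      {x : Fin n → ℝ | ∑ i ∈ S.1, x i ≤ (d : ℝ) - 1} := by
    rintro _ ⟨T, hT, rfl⟩
    show ∑ i ∈ S.1, vert T.1 i ≤ (d : ℝ) - 1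
    rw [hcard T]
    have hne : S ≠ T := fun h => hS (h ▸ hT)
    have hlt : (S.1 ∩ T.1).card < d := by
      by_contra hge
      have h1 : (S.1 ∩ T.1) = S.1 := Finset.eq_of_subset_of_card_le Finset.inter_subset_left
        (by rw [S.2]; omega)
      have h2 : (S.1 ∩ T.1) = T.1 := Finset.eq_of_subset_of_card_le Finset.inter_subset_right
        (by rw [T.2]; omega)
      exact hne (Subtype.ext (h1.symm.trans h2))
    have : ((S.1 ∩ T.1).card : ℝ) + 1 ≤ (d : ℝ) := by exact_mod_cast hlt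
    linarith
  have h2 : ∑ i ∈ S.1, vert S.1 i ≤ (d : ℝ) - 1 := convexHull_min hsub hc h
  rw [hcard S, Finset.inter_self, S.2] at h2
  linarith

lemma mins_of_eq {π π' : Vec d n} (h : subdivision π = subdivision π') (u : Fin n → ℝ) :
    ∃ u' : Fin n → ℝ, mins π u = mins π' u' := by
  have h1 : Prod.fst '' lowerFace π u ∈ subdivision π := ⟨u, rfl⟩
  rw [h] at h1
  obtain ⟨u', hu'⟩ := h1
  refine ⟨u', ?_⟩
  rw [fst_lowerFace, fst_lowerFace] at hu'
  ext S
  rw [← vert_mem_iff, hu', vert_mem_iff]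

lemma sub_of_mins {π π' : Vec d n} (h : ∀ u : Fin n → ℝ, ∃ u' : Fin n → ℝ, mins π u = mins π' u') :
    subdivision π ⊆ subdivision π' := by
  rintro _ ⟨u, rfl⟩
  obtain ⟨u', hu'⟩ := h u
  exact ⟨u', by rw [fst_lowerFace, fst_lowerFace, hu']⟩

/-- Scaling by a positive number and adding an element of the lineality space does not change the
subdivision. -/
lemma subdivision_eq {π π' : Vec d n} {c : ℝ} (hc : 0 < c) {a : Fin n → ℝ}
    (h : ∀ S : Sub d n, π' S = c * π S + ∑ i ∈ S.1, a i) : subdivision π' = subdivision π := by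
  have key : ∀ u : Fin n → ℝ, mins π' (fun i => c * u i - a i) = mins π u := by
    intro u
    ext S
    refine forall_congr' fun T => ?_
    rw [h S, h T, Finset.sum_sub_distrib, Finset.sum_sub_distrib, ← Finset.mul_sum,
      ← Finset.mul_sum]
    constructor
    · intro h1
      have h2 : c * (π S + ∑ i ∈ S.1, u i) ≤ c * (π T + ∑ i ∈ T.1, u i) := by linarith
      exact le_of_mul_le_mul_left h2 hc
    · intro h1
      have h2 := mul_le_mul_of_nonneg_left h1 hc.le
      linarith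
  apply Set.Subset.antisymm
  · refine sub_of_mins fun u => ⟨fun i => (u i + a i) / c, ?_⟩
    rw [← key]
    congr 1
    funext i
    field_simp
    ring
  · exact sub_of_mins fun u => ⟨_, (key u).symm⟩

/-- The lineality space as a submodule. -/
def lin (d n : ℕ) : Submodule ℝ (Vec d n) where
  carrier := lineality d n
  add_mem' := by
    rintro π π' ⟨a, ha⟩ ⟨b, hb⟩
    exact ⟨a + b, fun S => by
      rw [Pi.add_apply, ha, hb, ← Finset.sum_add_distrib]; rfl⟩
  zero_mem' := ⟨0, fun S => by simp⟩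
  smul_mem' := by
    rintro c π ⟨a, ha⟩
    exact ⟨c • a, fun S => by
      rw [Pi.smul_apply, ha, smul_eq_mul, Finset.mul_sum]; rfl⟩

lemma span_lineality : Submodule.span ℝ (lineality d n) = lin d n :=
  Submodule.span_eq (lin d n)

/-! The vector. -/

/-- The vector in `Dr(3,9)`. -/
noncomputable def ww : Vec 3 9 := fun S => w S.1

lemma val_eq (π : Vec 3 9) (A : Finset (Fin 9)) (h : A.card = 3) : val π A = π ⟨A, h⟩ := by
  rw [val, dif_pos h]

lemma mem_cell_iff (π : Vec 3 9) (c : Fin 9 → ℝ) (B : Finset (Fin 9)) :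
    B ∈ cell (val π) c ↔ ∃ h : B.card = 3, (⟨B, h⟩ : Sub 3 9) ∈ mins π (fun i => - c i) := by
  constructor
  · rintro ⟨h, h1⟩
    refine ⟨h, fun T => ?_⟩
    have h2 := h1 T.1 T.2
    rw [val_eq π B h, val_eq π T.1 T.2] at h2
    simp only [Finset.sum_neg_distrib]
    linarith
  · rintro ⟨h, h1⟩
    refine ⟨h, fun B' hB' => ?_⟩
    have h2 := h1 ⟨B', hB'⟩
    rw [val_eq π B h, val_eq π B' hB']
    simp only [Finset.sum_neg_distrib] at h2
    linarith

lemma cell_w (c : Fin 9 → ℝ) : cell w c = cell (val ww) c := by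
  have h0 : ∀ A : Finset (Fin 9), A.card = 3 → val ww A = w A := fun A hA => val_eq ww A hA
  ext B
  constructor
  · rintro ⟨h, h1⟩
    exact ⟨h, fun B' hB' => by rw [h0 B h, h0 B' hB']; exact h1 B' hB'⟩
  · rintro ⟨h, h1⟩
    exact ⟨h, fun B' hB' => by rw [← h0 B h, ← h0 B' hB']; exact h1 B' hB'⟩

lemma rigid' (v : Vec 3 9) (h : ∀ u : Fin 9 → ℝ, ∃ u' : Fin 9 → ℝ, mins ww u ⊆ mins v u') :
    ∃ lam : ℝ, 0 ≤ lam ∧ ∃ a : Fin 9 → ℝ, ∀ S : Sub 3 9, v S = lam * ww S + ∑ i ∈ S.1, a i := by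
  obtain ⟨lam, hlam, a, ha⟩ := rigid (val v) (fun c => by
    obtain ⟨u', hu'⟩ := h (fun i => - c i)
    refine ⟨fun i => - u' i, fun B hB => ?_⟩
    rw [cell_w, mem_cell_iff] at hB
    obtain ⟨hB1, hB2⟩ := hB
    rw [mem_cell_iff]
    refine ⟨hB1, ?_⟩
    simp only [neg_neg]
    exact hu' hB2)
  refine ⟨lam, hlam, a, fun S => ?_⟩
  have h1 := ha S.1 S.2
  rw [val_eq v S.1 S.2] at h1
  exact h1

lemma nontriv' (u : Fin 9 → ℝ) : mins ww u ≠ Set.univ := by
  intro h
  apply nontriv
  refine ⟨fun i => - u i, fun B hB B' hB' => ?_⟩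
  have h1 : (⟨B, hB⟩ : Sub 3 9) ∈ mins ww u := by rw [h]; trivial
  have h2 := h1 ⟨B', hB'⟩
  simp only [Finset.sum_neg_distrib]
  simp only [ww] at h2
  linarith

/-- The vectors with the same subdivision as `ww`. -/
lemma same_iff (v : Vec 3 9) : subdivision v = subdivision ww ↔
    ∃ lam : ℝ, 0 < lam ∧ ∃ a : Fin 9 → ℝ, ∀ S : Sub 3 9, v S = lam * ww S + ∑ i ∈ S.1, a i := by
  constructor
  · intro h
    obtain ⟨lam, hlam, a, ha⟩ := rigid' v (fun u => by
      obtain ⟨u', hu'⟩ := mins_of_eq h.symm u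
      exact ⟨u', hu'.subset⟩)
    rcases hlam.eq_or_lt with h0 | h0
    · exfalso
      obtain ⟨u', hu'⟩ := mins_of_eq h (fun i => - a i)
      apply nontriv' u'
      rw [← hu']
      ext S
      simp only [Set.mem_univ, iff_true]
      intro T
      rw [ha S, ha T, ← h0]
      simp
    · exact ⟨lam, h0, a, ha⟩
  · rintro ⟨lam, h0, a, ha⟩
    exact subdivision_eq h0 ha

lemma union_pair (S : Finset (Fin 9)) (i j : Fin 9) : S ∪ {i, j} = insert i (insert j S) := by
  ext x
  simp only [Finset.mem_union, Finset.mem_insert, Finset.mem_singleton]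
  tauto

lemma mem_Dr_of (v : Vec 3 9) {lam : ℝ} (hlam : 0 < lam) {a : Fin 9 → ℝ}
    (ha : ∀ S : Sub 3 9, v S = lam * ww S + ∑ i ∈ S.1, a i) : v ∈ Dr 3 9 := by
  intro S i j k l hS hi hj hk hl hij hik hil hjk hjl hkl
  have hval : ∀ x y : Fin 9, x ∉ S → y ∉ S → x ≠ y →
      val v (S ∪ {x, y}) = lam * w (insert x (insert y S)) + (a x + a y + ∑ t ∈ S, a t) := by
    intro x y hx hy hxy
    have hx' : x ∉ insert y S := by
      rw [Finset.mem_insert]
      rintro (h | h)
      · exact hxy h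
      · exact hx h
    have hcard : (S ∪ {x, y}).card = 3 := by
      rw [union_pair, Finset.card_insert_of_notMem hx', Finset.card_insert_of_notMem hy]
      omega
    rw [val_eq v _ hcard, ha]
    show lam * w (S ∪ {x, y}) + ∑ t ∈ S ∪ {x, y}, a t = _
    rw [union_pair, Finset.sum_insert hx', Finset.sum_insert hy]
    ring
  rw [hval i j hi hj hij, hval k l hk hl hkl, hval i k hi hk hik, hval j l hj hl hjl,
    hval i l hi hl hil, hval j k hj hk hjk]
  rcases plucker S i j k l hS hi hj hk hl hij hik hil hjk hjl hkl with ⟨h1, h2⟩ | ⟨h1, h2⟩ | ⟨h1, h2⟩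
  · refine Or.inl ⟨?_, ?_⟩
    · have := congrArg (lam * ·) h1
      simp only [mul_add] at this
      linarith
    · have := mul_le_mul_of_nonneg_left h2 hlam.le
      simp only [mul_add] at this
      linarith
  · refine Or.inr (Or.inl ⟨?_, ?_⟩)
    · have := congrArg (lam * ·) h1
      simp only [mul_add] at this
      linarith
    · have := mul_le_mul_of_nonneg_left h2 hlam.le
      simp only [mul_add] at this
      linarith
  · refine Or.inr (Or.inr ⟨?_, ?_⟩)
    · have := congrArg (lam * ·) h1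
      simp only [mul_add] at this
      linarith
    · have := mul_le_mul_of_nonneg_left h2 hlam.le
      simp only [mul_add] at this
      linarith

/-- The open cone of the vector `ww`. -/
def good : Set (Vec 3 9) :=
  {v | ∃ lam : ℝ, 0 < lam ∧ ∃ a : Fin 9 → ℝ, ∀ S : Sub 3 9, v S = lam * ww S + ∑ i ∈ S.1, a i}

lemma cone_eq : cone ww = closure good := by
  unfold cone
  congr 1
  ext v
  constructor
  · rintro ⟨_, h⟩
    exact (same_iff v).1 h
  · rintro ⟨lam, h0, a, ha⟩
    exact ⟨mem_Dr_of v h0 ha, (same_iff v).2 ⟨lam, h0, a, ha⟩⟩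

lemma ww_mem_good : ww ∈ good := ⟨1, one_pos, 0, fun S => by simp⟩

/-- A linear functional which vanishes on the lineality space but not on `ww`. -/
def phi : Vec 3 9 →ₗ[ℝ] ℝ where
  toFun v := v ⟨{0, 1, 3}, by decide⟩ - v ⟨{0, 1, 2}, by decide⟩ + v ⟨{0, 2, 8}, by decide⟩
    - v ⟨{0, 3, 8}, by decide⟩
  map_add' v v' := by simp only [Pi.add_apply]; ring
  map_smul' c v := by simp only [Pi.smul_apply, smul_eq_mul, RingHom.id_apply]; ring

lemma phi_lin (a : Fin 9 → ℝ) : phi (fun S => ∑ i ∈ S.1, a i) = 0 := by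
  show ∑ i ∈ ({0, 1, 3} : Finset (Fin 9)), a i - ∑ i ∈ ({0, 1, 2} : Finset (Fin 9)), a i
    + ∑ i ∈ ({0, 2, 8} : Finset (Fin 9)), a i - ∑ i ∈ ({0, 3, 8} : Finset (Fin 9)), a i = 0
  rw [sum3 _ _ _ _ (by decide) (by decide) (by decide),
    sum3 _ _ _ _ (by decide) (by decide) (by decide),
    sum3 _ _ _ _ (by decide) (by decide) (by decide),
    sum3 _ _ _ _ (by decide) (by decide) (by decide)]
  ring

lemma phi_ww : phi ww = 2 := by
  show w {0, 1, 3} - w {0, 1, 2} + w {0, 2, 8} - w {0, 3, 8} = 2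
  rw [wval {0, 1, 3} 0 (by decide +kernel), wval {0, 1, 2} 0 (by decide +kernel),
    wval {0, 2, 8} 2 (by decide +kernel), wval {0, 3, 8} 0 (by decide +kernel)]
  norm_num

lemma phi_of {v : Vec 3 9} {lam : ℝ} {a : Fin 9 → ℝ}
    (h : ∀ S : Sub 3 9, v S = lam * ww S + ∑ i ∈ S.1, a i) : phi v = 2 * lam := by
  have : v = lam • ww + fun S => ∑ i ∈ S.1, a i := by
    funext S
    rw [h S]
    rfl
  rw [this, map_add, map_smul, phi_lin, phi_ww, smul_eq_mul]
  ring

lemma continuous_phi : Continuous phi := phi.continuous_of_finiteDimensional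

lemma phi_nonneg {v : Vec 3 9} (hv : v ∈ closure good) : 0 ≤ phi v := by
  have hc : IsClosed {v : Vec 3 9 | 0 ≤ phi v} := isClosed_le continuous_const continuous_phi
  have hs : good ⊆ {v : Vec 3 9 | 0 ≤ phi v} := by
    rintro v ⟨lam, h0, a, ha⟩
    show 0 ≤ phi v
    rw [phi_of ha]
    linarith
  exact closure_minimal hs hc hv

lemma span_closure_good :
    Submodule.span ℝ (closure good) = lin 3 9 ⊔ Submodule.span ℝ {ww} := by
  apply le_antisymm
  · rw [Submodule.span_le]
    refine closure_minimal ?_ (Submodule.closed_of_finiteDimensional _)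
    rintro v ⟨lam, _, a, ha⟩
    have : v = (fun S => ∑ i ∈ S.1, a i) + lam • ww := by
      funext S
      rw [ha S, add_comm]
      rfl
    rw [this]
    exact Submodule.add_mem_sup ⟨a, fun S => rfl⟩
      (Submodule.smul_mem _ _ (Submodule.mem_span_singleton_self ww))
  · have hww : ww ∈ Submodule.span ℝ (closure good) :=
      Submodule.subset_span (subset_closure ww_mem_good)
    refine sup_le ?_ ((Submodule.span_singleton_le_iff_mem _ _).2 hww)
    rintro l ⟨a, ha⟩
    have h1 : ww + l ∈ good := ⟨1, one_pos, a, fun S => by rw [Pi.add_apply, ha S, one_mul]⟩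
    have h2 : l = (ww + l) - ww := by abel
    rw [h2]
    exact Submodule.sub_mem _ (Submodule.subset_span (subset_closure h1)) hww

lemma exists_of_mem_span {v : Vec 3 9} (hv : v ∈ Submodule.span ℝ (closure good)) :
    ∃ (lam : ℝ) (a : Fin 9 → ℝ), ∀ S : Sub 3 9, v S = lam * ww S + ∑ i ∈ S.1, a i := by
  rw [span_closure_good] at hv
  obtain ⟨l, ⟨a, ha⟩, m, hm, rfl⟩ := Submodule.mem_sup.1 hv
  obtain ⟨c, rfl⟩ := Submodule.mem_span_singleton.1 hm
  exact ⟨c, a, fun S => by rw [Pi.add_apply, ha S, Pi.smul_apply, smul_eq_mul, add_comm]⟩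

lemma dim_cone : dim (cone ww) = dim (lineality 3 9) + 1 := by
  unfold dim
  rw [cone_eq, span_closure_good, span_lineality]
  have hne : ww ≠ 0 := by
    intro h
    have := phi_ww
    rw [h, map_zero] at this
    norm_num at this
  have hinf : lin 3 9 ⊓ Submodule.span ℝ {ww} = ⊥ := by
    rw [eq_bot_iff]
    rintro v ⟨⟨a, ha⟩, hv⟩
    obtain ⟨c, rfl⟩ := Submodule.mem_span_singleton.1 hv
    have h1 : phi (c • ww) = 0 := by
      have : c • ww = fun S => ∑ i ∈ S.1, a i := funext ha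
      rw [this, phi_lin]
    rw [map_smul, phi_ww, smul_eq_mul] at h1
    have hc : c = 0 := by linarith
    rw [hc, zero_smul]
    exact Submodule.zero_mem _
  have h := Submodule.finrank_sup_add_finrank_inf_eq (lin 3 9) (Submodule.span ℝ {ww})
  rw [hinf, finrank_bot, finrank_span_singleton hne, add_zero] at h
  exact h

lemma ww_mem_interior : ww ∈ intrinsicInterior ℝ (cone ww) := by
  rw [cone_eq, mem_intrinsicInterior]
  refine ⟨⟨ww, subset_affineSpan ℝ _ (subset_closure ww_mem_good)⟩, ?_, rfl⟩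
  rw [mem_interior]
  refine ⟨{y | 0 < phi y.1}, ?_, ?_, ?_⟩
  · rintro ⟨y, hy⟩ (hy1 : 0 < phi y)
    show y ∈ closure good
    obtain ⟨lam, a, ha⟩ := exists_of_mem_span (affineSpan_subset_span hy)
    rw [phi_of ha] at hy1
    exact subset_closure ⟨lam, by linarith, a, ha⟩
  · exact isOpen_lt continuous_const (continuous_phi.comp continuous_subtype_val)
  · show 0 < phi ww
    rw [phi_ww]
    norm_num

lemma good_of_interior {v : Vec 3 9} (hv : v ∈ intrinsicInterior ℝ (cone ww)) : v ∈ good := by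
  have hv0 := intrinsicInterior_subset hv
  rw [cone_eq] at hv hv0
  obtain ⟨lam, a, ha⟩ := exists_of_mem_span (Submodule.subset_span hv0)
  refine ⟨lam, ?_, a, ha⟩
  by_contra hlam
  have hphi : phi v ≤ 0 := by rw [phi_of ha]; linarith
  obtain ⟨y, hy, hyv⟩ := mem_intrinsicInterior.1 hv
  have h2 : (2 : ℝ) • ww ∈ good := ⟨2, two_pos, 0, fun S => by simp⟩
  have hmem : ∀ t : ℝ, t • ((2 : ℝ) • ww -ᵥ ww) +ᵥ v ∈ affineSpan ℝ (closure good) := fun t =>
    AffineSubspace.smul_vsub_vadd_mem _ t (subset_affineSpan ℝ _ (subset_closure h2))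
      (subset_affineSpan ℝ _ (subset_closure ww_mem_good)) (subset_affineSpan ℝ _ hv0)
  let f : ℝ → affineSpan ℝ (closure good) := fun t => ⟨t • ((2 : ℝ) • ww -ᵥ ww) +ᵥ v, hmem t⟩
  have hf : Continuous f := by
    refine Continuous.subtype_mk ?_ _
    simp only [vsub_eq_sub, vadd_eq_add]
    exact (continuous_id.smul continuous_const).add continuous_const
  have hf0 : f 0 = y := by
    apply Subtype.ext
    show (0 : ℝ) • ((2 : ℝ) • ww -ᵥ ww) +ᵥ v = y.1
    rw [zero_smul, zero_vadd, hyv]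
  have hopen : IsOpen (f ⁻¹' interior ((↑) ⁻¹' closure good : Set (affineSpan ℝ (closure good)))) :=
    isOpen_interior.preimage hf
  have h0 : (0 : ℝ) ∈ f ⁻¹' interior ((↑) ⁻¹' closure good : Set (affineSpan ℝ (closure good))) := by
    show f 0 ∈ interior ((↑) ⁻¹' closure good : Set (affineSpan ℝ (closure good)))
    rw [hf0]
    exact hy
  obtain ⟨ε, hε, hball⟩ := Metric.isOpen_iff.1 hopen 0 h0
  have hmem2 : (-(ε / 2) : ℝ) ∈ Metric.ball (0 : ℝ) ε := by
    rw [Metric.mem_ball, Real.dist_eq, sub_zero, abs_neg, abs_of_pos (by linarith)]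
    linarith
  have h3 : f (-(ε / 2)) ∈ interior ((↑) ⁻¹' closure good : Set (affineSpan ℝ (closure good))) :=
    hball hmem2
  have h6 : f (-(ε / 2)) ∈ ((↑) ⁻¹' closure good : Set (affineSpan ℝ (closure good))) :=
    interior_subset h3
  have h4 : (-(ε / 2)) • ((2 : ℝ) • ww -ᵥ ww) +ᵥ v ∈ closure good := h6
  have h5 := phi_nonneg h4
  rw [vsub_eq_sub, vadd_eq_add, map_add, map_smul, map_sub, map_smul, phi_ww, smul_eq_mul,
    smul_eq_mul] at h5
  linarith

lemma not_corank' (M : Matroid (Fin 9)) : subdivision ww ≠ subdivision (corank 3 M) := by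
  intro h
  have hrho : ∀ c : Fin 9 → ℝ, cell (rho M) c = cell (val (corank 3 M)) c := by
    have h0 : ∀ A : Finset (Fin 9), A.card = 3 → val (corank 3 M) A = rho M A := fun A hA => by
      rw [val_eq _ A hA]
      simp [corank, rho]
    intro c
    ext B
    constructor
    · rintro ⟨h, h1⟩
      exact ⟨h, fun B' hB' => by rw [h0 B h, h0 B' hB']; exact h1 B' hB'⟩
    · rintro ⟨h, h1⟩
      exact ⟨h, fun B' hB' => by rw [← h0 B h, ← h0 B' hB']; exact h1 B' hB'⟩
  have key : ∀ (π π' : Vec 3 9), subdivision π = subdivision π' → ∀ c : Fin 9 → ℝ,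
      ∃ c' : Fin 9 → ℝ, cell (val π) c = cell (val π') c' := by
    intro π π' hπ c
    obtain ⟨u', hu'⟩ := mins_of_eq hπ (fun i => - c i)
    refine ⟨fun i => - u' i, ?_⟩
    ext B
    rw [mem_cell_iff, mem_cell_iff, hu']
    simp only [neg_neg]
  refine not_corank M (fun c => ?_) (fun c => ?_)
  · obtain ⟨c', hc'⟩ := key _ _ h c
    exact ⟨c', by rw [cell_w, hc', hrho]⟩
  · obtain ⟨c', hc'⟩ := key _ _ h.symm c
    exact ⟨c', by rw [cell_w, hrho, hc']⟩

end Proof

/-- Full answer to Q1 (yes, with `(d,n) = (3,9)`): there is a vector `π` in `Dr(3,9)` whose cone in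
the fan `Dr(3,9)` is a ray; `π` lies in the relative interior of this ray, all vectors in the
relative interior of the ray induce the subdivision `Σ(π)`, and `Σ(π)` is not the corank subdivision
`Σ(ρ_M)` of any matroid `M` of rank `3` on `[9]`. -/
theorem result : ∃ π ∈ Dr 3 9, IsRay (cone π) ∧
    π ∈ intrinsicInterior ℝ (cone π) ∧
    (∀ π' ∈ intrinsicInterior ℝ (cone π), subdivision π' = subdivision π) ∧
    ∀ M : Matroid (Fin 9), M.E = Set.univ → M.eRank = 3 →
      subdivision π ≠ subdivision (corank 3 M) := by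
  have hDr : Proof.ww ∈ Dr 3 9 :=
    Proof.mem_Dr_of Proof.ww (lam := 1) (a := 0) one_pos (fun S => by simp)
  exact ⟨Proof.ww, hDr, ⟨⟨Proof.ww, hDr, rfl⟩, Proof.dim_cone⟩, Proof.ww_mem_interior,
    fun π' h => (Proof.same_iff π').2 (Proof.good_of_interior h), fun M _ _ => Proof.not_corank' M⟩

end Pool.Agent.Results.MP_2e1090_co.RayNotCorank
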